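import Mathlib

namespace Pool.Agent.Results.MP_332ffb_mp.Embedded

open Real Finset MeasureTheory

/-- `μ` is an eigenvalue of the Kirchhoff Laplacian of the metric graph with edges `e` from `s e`
to `t e` of length `l e` and `n v` leads at the vertex `v` -/
def Eigen {V E : Type} [Fintype E] [DecidableEq V] (s t : E → V) (n : V → ℕ) (l : E → ℝ)
    (μ : ℝ) : Prop :=
  ∃ (u : E → ℝ → ℝ) (w : (v : V) → Fin (n v) → ℝ → ℝ) (c : V → ℝ),
    (∀ e, ContDiff ℝ 2 (u e) ∧ ∀ x ∈ Set.Icc 0 (l e), -deriv (deriv (u e)) x = μ * u e x) ∧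
    (∀ v j, ContDiff ℝ 2 (w v j) ∧ (∀ x, 0 ≤ x → -deriv (deriv (w v j)) x = μ * w v j x) ∧
      MemLp (w v j) 2 (volume.restrict (Set.Ici 0))) ∧
    (∀ e, u e 0 = c (s e) ∧ u e (l e) = c (t e)) ∧ (∀ v j, w v j 0 = c v) ∧
    (∀ v, ∑ e with s e = v, deriv (u e) 0 - ∑ e with t e = v, deriv (u e) (l e) +
      ∑ j, deriv (w v j) 0 = 0) ∧
    ∃ e, ∃ x ∈ Set.Icc 0 (l e), u e x ≠ 0

theorem den (P : ℕ) (hP : P.Prime) (c : ℤ) (θ : ℝ) (h : P * cos θ = c)
    (hc : ¬ (P : ℤ) ∣ 2 * c) (n : ℕ) : ∃ A B : ℤ, (P : ℝ) ^ n * cos (n * θ) = A ∧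
      (P : ℝ) ^ (n + 1) * cos ((n + 1 : ℕ) * θ) = B ∧ ¬ (P : ℤ) ∣ B := by
  induction n with
  | zero => exact ⟨1, c, by simp, by simpa using h, fun h => hc (h.mul_left 2)⟩
  | succ n ih =>
    obtain ⟨A, B, h1, h2, h3⟩ := ih
    refine ⟨B, 2 * c * B - P * (P * A), h2, ?_, fun h4 => ?_⟩
    · have h4 : cos ((n + 1 + 1 : ℕ) * θ) = 2 * cos θ * cos ((n + 1 : ℕ) * θ) - cos (n * θ) := by
        have e1 : ((n + 1 + 1 : ℕ) : ℝ) * θ = (n + 1 : ℕ) * θ + θ := by push_cast; ring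
        have e2 : (n : ℝ) * θ = (n + 1 : ℕ) * θ - θ := by push_cast; ring
        rw [e1, e2, cos_add, cos_sub]
        ring
      rw [h4]
      push_cast at h2 ⊢
      rw [← h, ← h1, ← h2]
      ring
    · have h5 := (dvd_sub_left (dvd_mul_right (P : ℤ) (P * A))).1 h4
      rcases (Nat.prime_iff_prime_int.1 hP).dvd_or_dvd h5 with h6 | h6
      · exact hc h6
      · exact h3 h6

theorem den' (P : ℕ) (hP : P.Prime) (c : ℤ) (θ : ℝ) (h : P * cos θ = c)
    (hc : ¬ (P : ℤ) ∣ 2 * c) (m : ℤ) : ∃ A : ℤ, (P : ℝ) ^ m.natAbs * cos (m * θ) = A ∧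
      (m ≠ 0 → ¬ (P : ℤ) ∣ A) := by
  have h1 : cos (m * θ) = cos (m.natAbs * θ) := by
    rw [← cos_abs, abs_mul, Nat.cast_natAbs, Int.cast_abs, ← cos_abs (_ * θ), abs_mul, abs_abs]
  rw [h1, ← Int.natAbs_ne_zero]
  cases m.natAbs with
  | zero => exact ⟨1, by simp, by simp⟩
  | succ k =>
    obtain ⟨-, B, -, h2, h3⟩ := den P hP c θ h hc k
    exact ⟨B, h2, fun _ => h3⟩

theorem result : ∃ (s t : Fin 3 → Fin 3) (n : Fin 3 → ℕ) (l : Fin 3 → ℝ),
    (∀ e, s e ≠ t e) ∧ (SimpleGraph.fromRel fun x y => ∃ e, s e = x ∧ t e = y).Connected ∧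
    (∃ v, 0 < n v) ∧ (∀ v, #{e | s e = v} + #{e | t e = v} + n v ≠ 2) ∧ (∀ e, 0 < l e) ∧
    LinearIndependent ℤ l ∧ ∃ μ, Eigen s t n l μ := by
  obtain ⟨a, ha⟩ : ∃ a, a = arctan (1 / 2) := ⟨_, rfl⟩
  obtain ⟨b, hb⟩ : ∃ b, b = arctan 4 := ⟨_, rfl⟩
  have a0 : 0 < a := ha ▸ arctan_pos.2 (by norm_num)
  have b0 : 0 < b := hb ▸ arctan_pos.2 (by norm_num)
  have ca : 0 < cos a := ha ▸ cos_arctan_pos _
  have cb : 0 < cos b := hb ▸ cos_arctan_pos _
  have sa : sin a = 1 / 2 * cos a := by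
    rw [← div_eq_iff ca.ne', ← tan_eq_sin_div_cos, ha, tan_arctan]
  have sb : sin b = 4 * cos b := by
    rw [← div_eq_iff cb.ne', ← tan_eq_sin_div_cos, hb, tan_arctan]
  have hπ := pi_pos
  have hd : ∀ A B : ℝ, deriv (fun x => A * cos x + B * sin x) =
      fun x => B * cos x + -A * sin x := by
    intro A B
    ext x
    refine (((hasDerivAt_cos x).const_mul A).add ((hasDerivAt_sin x).const_mul B)).deriv.trans ?_
    ring
  refine ⟨![0, 0, 1], ![1, 1, 2], ![1, 0, 0], ![π + a, a, b], by decide, by decide, ⟨0, by decide⟩,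
    by decide, fun e => by fin_cases e <;> simp <;> linarith, ?_, 1,
    fun e x => ![0, 0, -sin a] e * cos x + ![1, -1, -2 * cos a] e * sin x, fun _ _ _ => 0,
    ![0, -sin a, -sin a * cos b - 2 * cos a * sin b], ?_, ?_, ?_, ?_, ?_, ?_⟩
  · rw [Fintype.linearIndependent_iff]
    intro g hg
    simp only [Fin.sum_univ_three, zsmul_eq_mul] at hg
    change g 0 * (π + a) + g 1 * a + g 2 * b = 0 at hg
    obtain ⟨A, h1, h2⟩ := den' 5 (by norm_num) 3 (2 * a) (by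
      rw [cos_two_mul, ha, cos_sq_arctan]; norm_num) (by decide) (g 0 + g 1)
    obtain ⟨B, h3, h4⟩ := den' 17 (by norm_num) (-15) (2 * b) (by
      rw [cos_two_mul, hb, cos_sq_arctan]; norm_num) (by decide) (g 2)
    have h5 : cos ((g 0 + g 1 : ℤ) * (2 * a)) = cos (g 2 * (2 * b)) := by
      rw [← cos_add_int_mul_two_pi _ (g 0), ← cos_neg (g 2 * _)]
      congr 1
      push_cast
      linarith
    have h6 : A * 17 ^ (g 2).natAbs = B * 5 ^ (g 0 + g 1).natAbs := by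
      have h7 : (A : ℝ) * 17 ^ (g 2).natAbs = B * 5 ^ (g 0 + g 1).natAbs := by
        rw [← h1, ← h3, h5]
        push_cast
        ring
      exact_mod_cast h7
    have h7 : g 0 + g 1 = 0 := by
      by_contra h
      have h8 : (5 : ℤ) ∣ A * 17 ^ (g 2).natAbs :=
        h6 ▸ (dvd_pow_self 5 (Int.natAbs_ne_zero.2 h)).mul_left B
      exact h2 h (IsCoprime.dvd_of_dvd_mul_right (IsCoprime.pow_right (by norm_num)) h8)
    have h8 : g 2 = 0 := by
      by_contra h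
      have h8 : (17 : ℤ) ∣ B * 5 ^ (g 0 + g 1).natAbs :=
        h6 ▸ (dvd_pow_self 17 (Int.natAbs_ne_zero.2 h)).mul_left A
      exact h4 h (IsCoprime.dvd_of_dvd_mul_right (IsCoprime.pow_right (by norm_num)) h8)
    have h9 : g 0 = 0 := by
      have h10 : (g 0 : ℝ) + g 1 = 0 := by exact_mod_cast h7
      have h11 : (g 0 : ℝ) * π = 0 := by
        rw [h8] at hg
        linear_combination hg - a * h10
      exact_mod_cast (mul_eq_zero.1 h11).resolve_right hπ.ne'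
    intro i
    fin_cases i
    · exact h9
    · change g 1 = 0
      omega
    · exact h8
  · intro e
    refine ⟨by fun_prop, fun x _ => ?_⟩
    rw [hd, hd]
    ring
  · intro v j
    exact ⟨contDiff_const, by simp, MemLp.zero'⟩
  · intro e
    fin_cases e <;> simp [sin_add]
    ring
  · intro v j
    fin_cases v
    · rfl
    · exact j.elim0
    · exact j.elim0
  · intro v
    simp only [hd, sum_filter, Fin.sum_univ_three]
    fin_cases v <;> simp [cos_add]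
    · ring
    · rw [sa, sb]
      ring
  · refine ⟨1, a, ⟨a0.le, le_rfl⟩, ?_⟩
    simp [sa, ca.ne']

end Pool.Agent.Results.MP_332ffb_mp.Embedded
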